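import Pool.Agent.U728.Lie.Stm

set_option autoImplicit false

/-!
Project LA, package COMP: completeness of the certificates.
-/

namespace Pool.Agent.U129.LA

open MvPolynomial Pool.Agent.Helper967.AD Pool.Agent.Helper967.FL Pool.Agent.U728.Lie

universe u

section sem

variable {F : Type u} [Field F] [CharZero F]

lemma H_neg (e : ℕ → F) (s : ℕ) : H e (negC s) ↔ ¬ H e s := by
  unfold H negC
  rw [bevG_not]
  simp

lemma H_and (e : ℕ → F) (s t : ℕ) : H e (andC s t) ↔ H e s ∧ H e t := by
  unfold H andC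
  rw [bevG_and]
  simp

lemma H_or (e : ℕ → F) (s t : ℕ) : H e (orC s t) ↔ H e s ∨ H e t := by
  have h0 := bevG_or (α := ℕ → F) TF e 0 s t
  rw [zero_add] at h0
  unfold H orC
  rw [h0]
  simp

lemma H_imp (e : ℕ → F) (s t : ℕ) : H e (impC s t) ↔ (H e s → H e t) := by
  unfold impC
  rw [H_or, H_neg]
  tauto

lemma H_atom (e : ℕ → F) (c : ℕ) : H e (Nat.pair 0 c) ↔ aeval e (P c) = 0 := by
  unfold H
  rw [bevG_atom, TF_iff]

lemma H_eq (e : ℕ → F) (s t : ℕ) :
    H e (eqC s t) ↔ aeval e (pol s) = aeval e (pol t) := by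
  unfold eqC
  rw [H_atom, P, Nat.unpair_pair, map_sub, sub_eq_zero]

/-- the polynomial function of the variable `k` -/
noncomputable def uni (k : ℕ) (e : ℕ → F) : MvPolynomial ℕ ℚ →ₐ[ℚ] Polynomial F :=
  aeval (fun i => if i = k then Polynomial.X else Polynomial.C (e i))

lemma uni_eval (k : ℕ) (e : ℕ → F) (x : F) (r : MvPolynomial ℕ ℚ) :
    (uni k e r).eval x = aeval (Function.update e k x) r := by
  have h : (((Polynomial.aeval x : Polynomial F →ₐ[F] F).restrictScalars ℚ).comp (uni k e)) =
      aeval (Function.update e k x) := by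
    apply MvPolynomial.algHom_ext
    intro i
    by_cases hi : i = k
    · subst hi
      simp [uni]
    · simp [uni, hi]
  have h2 := congrArg (fun f => f r) h
  simpa [Polynomial.coe_aeval_eq_eval] using h2

lemma uni_deg (k : ℕ) (r : MvPolynomial ℕ ℚ) :
    ∃ D : ℕ, ∀ e : ℕ → F, (uni k e r).natDegree ≤ D := by
  induction r using MvPolynomial.induction_on with
  | C a =>
    refine ⟨0, fun e => ?_⟩
    have : uni k e (C a) = Polynomial.C (algebraMap ℚ F a) := by
      unfold uni
      rw [MvPolynomial.aeval_C]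
      rfl
    rw [this, Polynomial.natDegree_C]
  | add p q hp hq =>
    obtain ⟨D1, h1⟩ := hp
    obtain ⟨D2, h2⟩ := hq
    refine ⟨max D1 D2, fun e => ?_⟩
    rw [map_add]
    exact (Polynomial.natDegree_add_le _ _).trans (max_le_max (h1 e) (h2 e))
  | mul_X p i hp =>
    obtain ⟨D1, h1⟩ := hp
    refine ⟨D1 + 1, fun e => ?_⟩
    rw [map_mul]
    refine (Polynomial.natDegree_mul_le).trans (Nat.add_le_add (h1 e) ?_)
    unfold uni
    rw [aeval_X]
    split_ifs
    · exact Polynomial.natDegree_X_le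
    · rw [Polynomial.natDegree_C]; exact Nat.zero_le _

/-- replace the variable `k` by the variable `m` -/
noncomputable def rho (k m : ℕ) : MvPolynomial ℕ ℚ →ₐ[ℚ] MvPolynomial ℕ ℚ :=
  aeval (fun i => if i = k then X m else X i)

lemma rho_div (k m : ℕ) (r : MvPolynomial ℕ ℚ) :
    ∃ s : MvPolynomial ℕ ℚ, r - rho k m r = (X k - X m) * s := by
  induction r using MvPolynomial.induction_on with
  | C a =>
    refine ⟨0, ?_⟩
    unfold rho
    rw [MvPolynomial.aeval_C, mul_zero, sub_eq_zero]
    rfl
  | add p q hp hq =>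
    obtain ⟨s1, h1⟩ := hp
    obtain ⟨s2, h2⟩ := hq
    refine ⟨s1 + s2, ?_⟩
    rw [map_add]
    linear_combination h1 + h2
  | mul_X p i hp =>
    obtain ⟨s1, h1⟩ := hp
    have hX : rho k m (X i) = if i = k then X m else X i := by
      unfold rho
      rw [aeval_X]
    by_cases hi : i = k
    · refine ⟨s1 * X i + rho k m p, ?_⟩
      rw [map_mul, hX, if_pos hi, hi]
      linear_combination (X k : MvPolynomial ℕ ℚ) * h1
    · refine ⟨s1 * X i, ?_⟩
      rw [map_mul, hX, if_neg hi]
      linear_combination (X i : MvPolynomial ℕ ℚ) * h1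

lemma uni_rho (k m : ℕ) (hmk : m ≠ k) (e : ℕ → F) (r : MvPolynomial ℕ ℚ) :
    uni k e (rho k m r) = Polynomial.C (aeval (Function.update e k (e m)) r) := by
  have h : (uni k e).comp (rho k m) =
      ((Algebra.ofId F (Polynomial F)).restrictScalars ℚ).comp
        (aeval (Function.update e k (e m))) := by
    apply MvPolynomial.algHom_ext
    intro i
    by_cases hi : i = k
    · subst hi
      simp [uni, rho, hmk, Algebra.ofId_apply]
    · simp [uni, rho, hi, Algebra.ofId_apply]
  exact congrArg (fun f => f r) h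

lemma uni_factor (k m : ℕ) (hmk : m ≠ k) (r s : MvPolynomial ℕ ℚ)
    (hs : r - rho k m r = (X k - X m) * s) (e : ℕ → F)
    (h0 : aeval (Function.update e k (e m)) r = 0) :
    uni k e r = (Polynomial.X - Polynomial.C (e m)) * uni k e s := by
  have h1 := congrArg (uni k e) hs
  rw [map_sub, map_mul, map_sub, uni_rho k m hmk, h0, map_zero, sub_zero] at h1
  rw [h1]
  congr 2
  · unfold uni
    rw [aeval_X, if_pos rfl]
  · unfold uni
    rw [aeval_X, if_neg hmk]

/-! ### Derived rules -/

variable {k θ : ℕ}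

lemma W_mono {σ σ' : ℕ} (h : ∀ e : ℕ → F, H e σ → H e σ') (hW : W F σ' k θ) : W F σ k θ := by
  refine W.cases σ σ' σ' k θ (fun e => ?_) hW hW
  rw [H_imp, H_or]
  exact fun he => Or.inl (h e he)

lemma W_split {σ : ℕ} (τ : ℕ) (h1 : W F (andC σ τ) k θ) (h2 : W F (andC σ (negC τ)) k θ) :
    W F σ k θ := by
  refine W.cases σ _ _ k θ (fun e => ?_) h1 h2
  rw [H_imp, H_or, H_and, H_and, H_neg]
  tauto

lemma W_empty {σ : ℕ} (h : ∀ e : ℕ → F, ¬ H e σ) : W F σ k θ := by
  refine W.wit σ k θ 0 (fun e => ?_)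
  rw [H_imp]
  exact fun he => absurd he (h e)

lemma W_list (L : List ℕ) : ∀ σ : ℕ, (∀ τ ∈ L, W F (andC σ τ) k θ) →
    (∀ σ', (∀ e : ℕ → F, H e σ' → H e σ ∧ ∀ τ ∈ L, ¬ H e τ) → W F σ' k θ) → W F σ k θ := by
  induction L with
  | nil =>
    intro σ _ h2
    exact h2 σ fun e he => ⟨he, by simp⟩
  | cons τ L ih =>
    intro σ h1 h2
    refine W_split τ (h1 τ (by simp)) (ih _ ?_ ?_)
    · intro τ' hτ'
      refine W_mono ?_ (h1 τ' (by simp [hτ']))
      intro e he
      rw [H_and, H_and] at he
      rw [H_and]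
      exact ⟨he.1.1, he.2⟩
    · intro σ' hσ'
      refine h2 σ' fun e he => ?_
      obtain ⟨h3, h4⟩ := hσ' e he
      rw [H_and, H_neg] at h3
      refine ⟨h3.1, fun τ' hτ' => ?_⟩
      rcases List.mem_cons.1 hτ' with rfl | h5
      · exact h3.2
      · exact h4 τ' h5

lemma exists_num : ∃ num : ℕ → ℕ, ∀ i, pol (num i) = C (i : ℚ) :=
  ⟨fun i => (pol_surj (C (i : ℚ))).choose, fun i => (pol_surj (C (i : ℚ))).choose_spec⟩

/-- A polynomial with few values at the first points is constant. -/
lemma poly_const (q : Polynomial F) (d : ℕ) (hd : q.natDegree ≤ d)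
    (h : ∀ i ≤ d, ∀ j ≤ d, q.eval (i : F) = q.eval (j : F)) : q = Polynomial.C (q.eval 0) := by
  classical
  have h1 : q - Polynomial.C (q.eval 0) = 0 := by
    refine Polynomial.eq_zero_of_natDegree_lt_card_of_eval_eq_zero'
      (q - Polynomial.C (q.eval 0)) ((Finset.range (d + 1)).image (fun i : ℕ => (i : F))) ?_ ?_
    · intro x hx
      rw [Finset.mem_image] at hx
      obtain ⟨i, hi, rfl⟩ := hx
      have h2 := h i (by rw [Finset.mem_range] at hi; omega) 0 (Nat.zero_le _)
      rw [Nat.cast_zero] at h2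
      rw [Polynomial.eval_sub, Polynomial.eval_C, h2, sub_self]
    · rw [Finset.card_image_of_injective _ Nat.cast_injective, Finset.card_range]
      refine lt_of_le_of_lt (Polynomial.natDegree_sub_C.le) ?_
      omega
  exact sub_eq_zero.1 h1

lemma poly_ne (q : Polynomial F) (d : ℕ) (hd : q.natDegree ≤ d) (hq : q ≠ 0) :
    ∃ j ≤ d, q.eval (j : F) ≠ 0 := by
  by_contra hcon
  push Not at hcon
  have h1 := poly_const q d hd (fun i hi j hj => by rw [hcon i hi, hcon j hj])
  have h2 := hcon 0 (Nat.zero_le _)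
  rw [Nat.cast_zero] at h2
  rw [h2, map_zero] at h1
  exact hq h1

/-! ### The two claims -/

section claims

variable (hS : S_SUB.{u})
include hS

lemma sub_H (e : ℕ → F) (k t n : ℕ) :
    H e (subF (k, t) n) ↔ H (Function.update e k (aeval e (pol t))) n :=
  (hS.2.2 F e k t n).2

lemma sub_T (e : ℕ → F) (k t n : ℕ) :
    aeval e (pol (subT (k, t) n)) = aeval (Function.update e k (aeval e (pol t))) (pol n) :=
  (hS.2.2 F e k t n).1

lemma claimD (num : ℕ → ℕ) (hnum : ∀ i, pol (num i) = C (i : ℚ)) (d : ℕ) :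
    ∀ (σ : ℕ) (r : MvPolynomial ℕ ℚ), (∀ e : ℕ → F, H e σ → uni k e r ≠ 0 ∧
      (uni k e r).natDegree ≤ d ∧ ∃ x, (uni k e r).eval x = 0 ∧ H (Function.update e k x) θ) →
      W F σ k θ := by
  have hnume : ∀ (e : ℕ → F) (i : ℕ), aeval e (pol (num i)) = (i : F) := by
    intro e i
    rw [hnum, MvPolynomial.aeval_C, map_natCast]
  induction d with
  | zero =>
    intro σ r h
    refine W_empty fun e he => ?_
    obtain ⟨h1, h2, x, h3, -⟩ := h e he
    have h4 := Polynomial.eq_C_of_natDegree_le_zero h2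
    rw [h4, Polynomial.eval_C] at h3
    rw [h3, map_zero] at h4
    exact h1 h4
  | succ d ih =>
    intro σ r h
    obtain ⟨p, hp⟩ := pol_surj r
    let Ls : List ℕ := (List.range (d + 2)).flatMap fun i => (List.range (d + 2)).map fun j =>
      negC (eqC (subT (k, num i) p) (subT (k, num j) p))
    refine W_list Ls σ ?_ ?_
    · intro τ hτ
      obtain ⟨i, -, hτ⟩ := List.mem_flatMap.1 hτ
      obtain ⟨j, -, rfl⟩ := List.mem_map.1 hτ
      generalize hτd : negC (eqC (subT (k, num i) p) (subT (k, num j) p)) = τ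
      have hm : ∃ m, andC σ τ < m ∧ θ < m ∧ p < m ∧ k < m :=
        ⟨andC σ τ + θ + p + k + 1, by omega, by omega, by omega, by omega⟩
      obtain ⟨m, hm1, hm2, hm3, hm4⟩ := hm
      have hmk : m ≠ k := by omega
      refine W.root (andC σ τ) k θ p m (num i) (num j) hm1 hm2 hm3 hm4 (fun e => ?_) ?_
      · rw [H_imp, H_and, hτd]
        exact fun he => he.2
      · obtain ⟨s, hs⟩ := rho_div k m r
        refine W_split (subF (k, varC m) θ) ?_ ?_
        · refine W.wit _ k θ (varC m) (fun e => ?_)
          rw [H_imp, H_and]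
          exact fun he => he.2
        · refine ih _ s fun e he => ?_
          rw [H_and, H_and, H_and, H_neg, sub_H hS, H_eq, sub_T hS, pol_varC, aeval_X, pol_zeroC,
            map_zero, hp] at he
          obtain ⟨⟨⟨he1, -⟩, he2⟩, he3⟩ := he
          obtain ⟨h1, h2, x, h3, h4⟩ := h e he1
          have h5 := uni_factor k m hmk r s hs e he2
          have h6 : uni k e s ≠ 0 := fun h0 => h1 (by rw [h5, h0, mul_zero])
          refine ⟨h6, ?_, x, ?_, h4⟩
          · have h7 : (uni k e r).natDegree = 1 + (uni k e s).natDegree := by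
              rw [h5, Polynomial.natDegree_mul (Polynomial.X_sub_C_ne_zero _) h6,
                Polynomial.natDegree_X_sub_C]
            omega
          · rw [h5, Polynomial.eval_mul, Polynomial.eval_sub, Polynomial.eval_X,
              Polynomial.eval_C] at h3
            rcases mul_eq_zero.1 h3 with h8 | h8
            · exfalso
              apply he3
              rw [← sub_eq_zero.1 h8]
              exact h4
            · exact h8
    · intro σ' hσ'
      refine W_empty fun e he => ?_
      obtain ⟨h0, h1⟩ := hσ' e he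
      obtain ⟨h2, h3, x, h4, -⟩ := h e h0
      have h5 : ∀ i ≤ d + 1, ∀ j ≤ d + 1, (uni k e r).eval (i : F) = (uni k e r).eval (j : F) := by
        intro i hi j hj
        have h6 := h1 (negC (eqC (subT (k, num i) p) (subT (k, num j) p))) (by
          refine List.mem_flatMap.2 ⟨i, List.mem_range.2 (by omega), List.mem_map.2 ⟨j,
            List.mem_range.2 (by omega), rfl⟩⟩)
        rw [H_neg, not_not, H_eq, sub_T hS, sub_T hS, hnume, hnume, hp] at h6
        rw [uni_eval, uni_eval]
        exact h6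
      have h6 := poly_const _ _ h3 h5
      rw [h6, Polynomial.eval_C] at h4
      rw [h4, map_zero] at h6
      exact h2 h6

lemma claimL (num : ℕ → ℕ) (hnum : ∀ i, pol (num i) = C (i : ℚ)) (L : List ℕ) :
    ∀ (D σ : ℕ) (r : MvPolynomial ℕ ℚ), (∀ e : ℕ → F, H e σ → uni k e r ≠ 0 ∧
      (uni k e r).natDegree ≤ D ∧ (∃ x, H (Function.update e k x) θ) ∧
      ∀ c ≤ θ, c ∉ L → uni k e (P c) = 0 ∨ uni k e (P c) ∣ uni k e r) → W F σ k θ := by
  have hnume : ∀ (e : ℕ → F) (i : ℕ), aeval e (pol (num i)) = (i : F) := by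
    intro e i
    rw [hnum, MvPolynomial.aeval_C, map_natCast]
  induction L with
  | nil =>
    intro D σ r h
    refine W_list ((List.range (D + 1)).map fun j => subF (k, num j) θ) σ ?_ ?_
    · intro τ hτ
      obtain ⟨j, -, rfl⟩ := List.mem_map.1 hτ
      refine W.wit _ k θ (num j) (fun e => ?_)
      rw [H_imp, H_and]
      exact fun he => he.2
    · intro σ' hσ'
      refine claimD hS num hnum D σ' r fun e he => ?_
      obtain ⟨h0, h1⟩ := hσ' e he
      obtain ⟨h2, h3, ⟨x, hx⟩, h4⟩ := h e h0
      refine ⟨h2, h3, x, ?_, hx⟩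
      by_contra hne
      obtain ⟨j, hj, hj2⟩ := poly_ne _ _ h3 h2
      have h5 := h1 (subF (k, num j) θ) (List.mem_map.2 ⟨j, List.mem_range.2 (by omega), rfl⟩)
      rw [sub_H hS, hnume] at h5
      apply h5
      have h6 : ∀ c ≤ θ, TF (Function.update e k (j : F)) c = TF (Function.update e k x) c := by
        intro c hc
        rw [Bool.eq_iff_iff, TF_iff, TF_iff, ← uni_eval, ← uni_eval]
        rcases h4 c hc (by simp) with h7 | ⟨q, h7⟩
        · rw [h7, Polynomial.eval_zero, Polynomial.eval_zero]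
        · rw [h7, Polynomial.eval_mul] at hne hj2
          exact ⟨fun h8 => absurd h8 (left_ne_zero_of_mul hj2),
            fun h8 => absurd h8 (left_ne_zero_of_mul hne)⟩
      unfold H at hx ⊢
      rw [← hx]
      exact bevG_congr _ _ _ _ _ h6
  | cons c L ih =>
    intro D σ r h
    obtain ⟨Dc, hDc⟩ := uni_deg (F := F) k (P c)
    refine W_list ((List.range (Dc + 1)).map fun j => negC (subF (k, num j) (Nat.pair 0 c))) σ
      ?_ ?_
    · intro τ hτ
      obtain ⟨j, -, rfl⟩ := List.mem_map.1 hτ
      refine ih (D + Dc) _ (r * P c) fun e he => ?_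
      rw [H_and, H_neg, sub_H hS, H_atom, hnume] at he
      obtain ⟨he1, he2⟩ := he
      obtain ⟨h2, h3, hx, h4⟩ := h e he1
      have h5 : uni k e (P c) ≠ 0 := by
        intro h0
        apply he2
        rw [← uni_eval, h0, Polynomial.eval_zero]
      refine ⟨?_, ?_, hx, ?_⟩
      · rw [map_mul]
        exact mul_ne_zero h2 h5
      · rw [map_mul]
        exact Polynomial.natDegree_mul_le.trans (Nat.add_le_add h3 (hDc e))
      · intro c' hc' hc2
        rw [map_mul]
        by_cases hcc : c' = c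
        · right
          rw [hcc]
          exact Dvd.intro_left _ rfl
        · rcases h4 c' hc' (by
            rw [List.mem_cons]
            push Not
            exact ⟨hcc, hc2⟩) with h6 | h6
          · exact Or.inl h6
          · exact Or.inr (h6.mul_right _)
    · intro σ' hσ'
      refine ih D σ' r fun e he => ?_
      obtain ⟨h0, h1⟩ := hσ' e he
      obtain ⟨h2, h3, hx, h4⟩ := h e h0
      refine ⟨h2, h3, hx, ?_⟩
      have h5 : uni k e (P c) = 0 := by
        by_contra hne
        obtain ⟨j, hj, hj2⟩ := poly_ne _ _ (hDc e) hne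
        have h6 := h1 (negC (subF (k, num j) (Nat.pair 0 c)))
          (List.mem_map.2 ⟨j, List.mem_range.2 (by omega), rfl⟩)
        rw [H_neg, not_not, sub_H hS, H_atom, hnume, ← uni_eval] at h6
        exact hj2 h6
      intro c' hc' hc2
      by_cases hcc : c' = c
      · left
        rw [hcc]
        exact h5
      · exact h4 c' hc' (by
          rw [List.mem_cons]
          push Not
          exact ⟨hcc, hc2⟩)

end claims

end sem

theorem t_COMP (hS : S_SUB.{u}) : S_COMP.{u} := by
  intro F _ _ _ σ k θ h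
  obtain ⟨num, hnum⟩ := exists_num
  refine claimL hS num hnum (List.range (θ + 1)) 0 σ 1 fun e he => ?_
  rw [map_one]
  refine ⟨one_ne_zero, by rw [Polynomial.natDegree_one], h e he, ?_⟩
  intro c hc hc2
  exact absurd (List.mem_range.2 (by omega)) hc2

end Pool.Agent.U129.LA
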